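import Pool.Agent.W780.BB.Stm

set_option autoImplicit false

/-! Project BB, part BAD (helper74). -/

namespace Pool.Agent.W74.BB

open Complex Set MeasureTheory Filter Topology Pool.Agent.W780.PG Pool.Agent.W780.BB

open scoped Real ComplexConjugate ENNReal

theorem norm_dir (θ : ℝ) : ‖dir θ‖ = 1 := norm_exp_ofReal_mul_I θ

theorem dir_mul_conj (θ : ℝ) : dir θ * conj (dir θ) = 1 := by
  rw [mul_conj, normSq_eq_norm_sq, norm_dir]; simp

theorem dir_add (a b : ℝ) : dir (a + b) = dir a * dir b := by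
  unfold dir; rw [← exp_add]; congr 1; push_cast; ring

theorem continuous_dir : Continuous dir := by
  unfold dir; fun_prop

theorem dir_re (h : ℝ) : (dir h).re = Real.cos h := exp_ofReal_mul_I_re h

theorem dir_im (h : ℝ) : (dir h).im = Real.sin h := exp_ofReal_mul_I_im h

theorem mp (a : ℂ) (θ : ℝ) :
    MeasurePreserving (fun z : ℂ => (a - z) * conj (dir θ)) := by
  have h1 : MeasurePreserving (fun z : ℂ => a - z) := Measure.measurePreserving_sub_left volume a
  have h2 : MeasurePreserving (rotation (Circle.exp (-θ))) :=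
    LinearIsometryEquiv.measurePreserving _
  have h3 := h2.comp h1
  convert h3 using 1
  funext z
  have h4 : conj (dir θ) = dir (-θ) := by
    unfold dir
    rw [← exp_conj]
    congr 1
    simp
  rw [Function.comp_apply, rotation_apply, Circle.coe_exp, h4, mul_comm]
  rfl

theorem key (a : ℂ) (Θ : Set ℝ) (E : Set ℂ) (hΘ : MeasurableSet Θ) (hE : MeasurableSet E) :
    volume {x : ℂ × ℝ | x.2 ∈ Θ ∧ (a - x.1) * conj (dir x.2) ∈ E} = volume E * volume Θ := by
  have hm : MeasurableSet {x : ℂ × ℝ | x.2 ∈ Θ ∧ (a - x.1) * conj (dir x.2) ∈ E} := by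
    apply MeasurableSet.inter
    · exact measurable_snd hΘ
    · have h1 : Measurable (fun x : ℂ × ℝ => (a - x.1) * conj (dir x.2)) := by
        apply Continuous.measurable
        have := continuous_dir
        fun_prop
      exact h1 hE
  rw [Measure.volume_eq_prod, Measure.prod_apply_symm hm]
  have h2 : ∀ y : ℝ, volume ((fun x : ℂ => (x, y)) ⁻¹' {x : ℂ × ℝ | x.2 ∈ Θ ∧
      (a - x.1) * conj (dir x.2) ∈ E}) = Θ.indicator (fun _ => volume E) y := by
    intro y
    by_cases hy : y ∈ Θ
    · rw [indicator_of_mem hy]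
      rw [← (mp a y).measure_preimage hE.nullMeasurableSet]
      congr 1
      ext z
      simp [hy]
    · rw [indicator_of_notMem hy]
      have : ((fun x : ℂ => (x, y)) ⁻¹' {x : ℂ × ℝ | x.2 ∈ Θ ∧
        (a - x.1) * conj (dir x.2) ∈ E}) = ∅ := by
        ext z
        simp [hy]
      rw [this, measure_empty]
  simp_rw [h2]
  rw [lintegral_indicator hΘ, lintegral_const, Measure.restrict_apply_univ]

/-- coordinates of points of the triangle -/
theorem tri_mem (w : ℂ → ℂ) (hw : ∀ p q r : ℂ, ∀ s t u : ℝ, s + t + u = 1 →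
    w (s • p + t • q + u • r) = s • w p + t • w q + u • w r) (S : Set ℂ) (hS : Convex ℝ S)
    (p q r z : ℂ) (hz : z ∈ convexHull ℝ ({p, q, r} : Set ℂ)) (hp : w p ∈ S) (hq : w q ∈ S)
    (hr : w r ∈ S) : w z ∈ S := by
  have h1 : ({p, q, r} : Set ℂ) ⊆ w ⁻¹' S := by
    intro x hx
    simp only [mem_insert_iff, mem_singleton_iff] at hx
    rcases hx with rfl | rfl | rfl <;> assumption
  have h2 : Convex ℝ (w ⁻¹' S) := by
    intro x hx y hy s t hs ht hst
    have h3 := hw x y y s t 0 (by linarith)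
    simp only [zero_smul, add_zero] at h3
    show w (s • x + t • y) ∈ S
    rw [h3]
    exact hS hx hy hs ht hst
  exact convexHull_min h1 h2 hz

theorem S_convex (a b c d : ℝ) : Convex ℝ (Icc a b ×ℂ Icc c d) := by
  intro x hx y hy s t hs ht hst
  rw [mem_reProdIm] at *
  have h1 := convex_Icc a b hx.1 hy.1 hs ht hst
  have h2 := convex_Icc c d hx.2 hy.2 hs ht hst
  constructor
  · simpa using h1
  · simpa using h2

theorem vol_rect (a b c d : ℝ) : volume (Icc a b ×ℂ Icc c d) =
    ENNReal.ofReal (b - a) * ENNReal.ofReal (d - c) := by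
  have h1 := Complex.volume_preserving_equiv_real_prod
  have h2 : (Icc a b ×ℂ Icc c d) = Complex.measurableEquivRealProd ⁻¹' (Icc a b ×ˢ Icc c d) := by
    ext z
    rw [mem_reProdIm]
    rfl
  rw [h2, h1.measure_preimage (measurableSet_Icc.prod measurableSet_Icc).nullMeasurableSet,
    Measure.volume_eq_prod, Measure.prod_prod, Real.volume_Icc, Real.volume_Icc]

theorem vol_line : volume {w : ℂ | w.re = 0} = 0 := by
  have h1 := Complex.volume_preserving_equiv_real_prod
  have h2 : {w : ℂ | w.re = 0} = Complex.measurableEquivRealProd ⁻¹' (({0} : Set ℝ) ×ˢ univ) := by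
    ext z
    simp [Complex.measurableEquivRealProd]
  rw [h2, h1.measure_preimage ((measurableSet_singleton 0).prod MeasurableSet.univ).nullMeasurableSet,
    Measure.volume_eq_prod, Measure.prod_prod, Real.volume_singleton, zero_mul]

/-- the set of directions close to the direction of `c` -/
def G (c : ℂ) (δ : ℝ) : Set ℝ := {θ | θ ∈ Ico 0 (2 * π) ∧ |(c * conj (dir θ)).im| ≤ δ}

theorem G_meas (c : ℂ) (δ : ℝ) : MeasurableSet (G c δ) := by
  apply MeasurableSet.inter
  · exact measurableSet_Ico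
  · have h1 : Continuous (fun θ : ℝ => |(c * conj (dir θ)).im|) := by
      have := continuous_dir
      fun_prop
    exact h1.measurable measurableSet_Iic

theorem G_lim (c : ℂ) (hc : c ≠ 0) : Tendsto (fun δ => volume (G c δ)) (𝓝[>] 0) (𝓝 0) := by
  have h1 := tendsto_measure_biInter_gt (μ := (volume : Measure ℝ)) (s := G c) (a := (0 : ℝ))
    (fun r _ => (G_meas c r).nullMeasurableSet)
    (fun i j _ hij θ hθ => ⟨hθ.1, hθ.2.trans hij⟩)
    ⟨1, one_pos, by
      have : volume (G c 1) ≤ volume (Ico 0 (2 * π)) := measure_mono fun θ hθ => hθ.1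
      refine ne_top_of_le_ne_top ?_ this
      rw [Real.volume_Ico]
      exact ENNReal.ofReal_ne_top⟩
  have h2 : volume (⋂ r > (0 : ℝ), G c r) = 0 := by
    have h3 : (⋂ r > (0 : ℝ), G c r) ⊆ range (fun k : ℤ => arg c - k * π) := by
      intro θ hθ
      rw [mem_iInter₂] at hθ
      have h4 : (c * conj (dir θ)).im = 0 := by
        rw [← abs_nonpos_iff]
        refine le_of_forall_pos_le_add fun ε hε => ?_
        rw [zero_add]
        exact (hθ ε hε).2
      have h5 : c * conj (dir θ) = ‖c‖ * exp (((arg c - θ : ℝ) : ℂ) * I) := by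
        conv_lhs => rw [← norm_mul_exp_arg_mul_I c]
        unfold dir
        rw [← exp_conj, mul_assoc, ← exp_add]
        congr 2
        simp
        ring
      rw [h5, im_ofReal_mul, exp_ofReal_mul_I_im] at h4
      have h6 : Real.sin (arg c - θ) = 0 := by
        rcases mul_eq_zero.1 h4 with h | h
        · exact absurd (norm_eq_zero.1 h) hc
        · exact h
      obtain ⟨k, hk⟩ := Real.sin_eq_zero_iff.1 h6
      exact ⟨k, by simp only; linarith⟩
    exact measure_mono_null h3 ((countable_range _).measure_zero _)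
  rw [h2] at h1
  exact h1

/-- the condition for a pair of points -/
def P (a b : ℂ) (T h : ℝ) : Set (ℂ × ℝ) :=
  {x | x.2 ∈ Ico 0 (2 * π) ∧ (a - x.1) * conj (dir x.2) ∈ Icc (-T) 0 ×ℂ Icc 0 (T * Real.sin h) ∧
    (b - x.1) * conj (dir x.2) ∈ Icc 0 T ×ℂ Icc 0 (T * Real.sin h)}

theorem bad_subset (V : Set ℂ) (T h : ℝ) (hT : 0 < T) (hh : 0 < h) (hh1 : h ≤ 1) :
    Bad V T h ⊆ ⋃ a ∈ V, ⋃ b ∈ V, P a b T h := by
  intro x hx
  obtain ⟨h1, ⟨a, ha, ha'⟩, b, hb, hb'⟩ := hx
  have hpi : h ≤ π / 2 := by have := Real.pi_gt_three; linarith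
  have hc0 : 0 ≤ Real.cos h := Real.cos_nonneg_of_mem_Icc ⟨by linarith [Real.pi_pos], hpi⟩
  have hc1 : Real.cos h ≤ 1 := Real.cos_le_one h
  have hs0 : 0 ≤ Real.sin h := Real.sin_nonneg_of_nonneg_of_le_pi hh.le (by linarith [Real.pi_pos])
  have hTs : 0 ≤ T * Real.sin h := mul_nonneg hT.le hs0
  have hw : ∀ p q r : ℂ, ∀ s t u : ℝ, s + t + u = 1 →
      ((s • p + t • q + u • r) - x.1) * conj (dir x.2) = s • ((p - x.1) * conj (dir x.2)) +
        t • ((q - x.1) * conj (dir x.2)) + u • ((r - x.1) * conj (dir x.2)) := by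
    intro p q r s t u hstu
    have h2 : x.1 = (s + t + u : ℝ) • x.1 := by rw [hstu, one_smul]
    conv_lhs => rw [h2]
    simp only [real_smul, ofReal_add]
    ring
  have hd := dir_mul_conj x.2
  have hd2 : dir (x.2 + h) * conj (dir x.2) = dir h := by
    rw [dir_add]
    linear_combination dir h * hd
  have hd3 : dir (x.2 - h) * conj (dir x.2) = dir (-h) := by
    rw [sub_eq_add_neg, dir_add]
    linear_combination dir (-h) * hd
  refine mem_iUnion₂.2 ⟨a, ha, mem_iUnion₂.2 ⟨b, hb, h1, ?_, ?_⟩⟩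
  · refine tri_mem (fun w => (w - x.1) * conj (dir x.2)) hw _ (S_convex _ _ _ _) _ _ _ a ha'
      ?_ ?_ ?_
    · have h3 : (x.1 - T • dir x.2 - x.1) * conj (dir x.2) = ((-T : ℝ) : ℂ) := by
        simp only [real_smul]
        push_cast
        linear_combination (-(T : ℂ)) * hd
      simp only [h3]
      rw [mem_reProdIm, ofReal_re, ofReal_im]
      exact ⟨⟨le_rfl, by linarith⟩, le_rfl, hTs⟩
    · simp only [sub_self, zero_mul]
      rw [mem_reProdIm, zero_re, zero_im]
      exact ⟨⟨by linarith, le_rfl⟩, le_rfl, hTs⟩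
    · have h3 : (x.1 + T • (dir (x.2 + h) - dir x.2) - x.1) * conj (dir x.2) =
          T • (dir h - 1) := by
        simp only [real_smul]
        linear_combination (T : ℂ) * hd2 - (T : ℂ) * hd
      simp only [h3]
      rw [mem_reProdIm, smul_re, smul_im, sub_re, sub_im, one_re, one_im, dir_re, dir_im, sub_zero]
      simp only [smul_eq_mul]
      refine ⟨⟨by nlinarith, by nlinarith⟩, hTs, le_rfl⟩
  · refine tri_mem (fun w => (w - x.1) * conj (dir x.2)) hw _ (S_convex _ _ _ _) _ _ _ b hb'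
      ?_ ?_ ?_
    · have h3 : (x.1 + T • dir x.2 - x.1) * conj (dir x.2) = ((T : ℝ) : ℂ) := by
        simp only [real_smul]
        linear_combination ((T : ℂ)) * hd
      simp only [h3]
      rw [mem_reProdIm, ofReal_re, ofReal_im]
      exact ⟨⟨by linarith, le_rfl⟩, le_rfl, hTs⟩
    · simp only [sub_self, zero_mul]
      rw [mem_reProdIm, zero_re, zero_im]
      exact ⟨⟨le_rfl, hT.le⟩, le_rfl, hTs⟩
    · have h3 : (x.1 + T • (dir x.2 - dir (x.2 - h)) - x.1) * conj (dir x.2) =
          T • (1 - dir (-h)) := by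
        simp only [real_smul]
        linear_combination (T : ℂ) * hd - (T : ℂ) * hd3
      simp only [h3]
      rw [mem_reProdIm, smul_re, smul_im, sub_re, sub_im, one_re, one_im, dir_re, dir_im,
        Real.cos_neg, Real.sin_neg]
      simp only [smul_eq_mul]
      refine ⟨⟨by nlinarith, by nlinarith⟩, by nlinarith, by nlinarith⟩

theorem P_small (a b : ℂ) (T ε : ℝ) (hT : 0 < T) (hε : 0 < ε) :
    ∀ᶠ h in 𝓝[>] (0 : ℝ), volume (P a b T h) ≤ ENNReal.ofReal (ε * h) := by
  by_cases hab : a = b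
  · subst hab
    refine Eventually.of_forall fun h => ?_
    have h1 : P a a T h ⊆ {x : ℂ × ℝ | x.2 ∈ (univ : Set ℝ) ∧
        (a - x.1) * conj (dir x.2) ∈ {w : ℂ | w.re = 0}} := by
      intro x hx
      obtain ⟨-, h2, h3⟩ := hx
      rw [mem_reProdIm] at h2 h3
      exact ⟨trivial, le_antisymm h2.1.2 h3.1.1⟩
    refine (measure_mono h1).trans ?_
    rw [key a univ {w : ℂ | w.re = 0} MeasurableSet.univ
      (measurable_re (measurableSet_singleton 0)), vol_line, zero_mul]
    exact zero_le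
  · have hc : b - a ≠ 0 := sub_ne_zero.2 (Ne.symm hab)
    have hlim : Tendsto (fun h : ℝ => volume (G (b - a) (T * h))) (𝓝[>] 0) (𝓝 0) := by
      refine (G_lim (b - a) hc).comp ?_
      rw [tendsto_nhdsWithin_iff]
      constructor
      · have : Tendsto (fun h : ℝ => T * h) (𝓝 0) (𝓝 (T * 0)) :=
          tendsto_const_nhds.mul tendsto_id
        rw [mul_zero] at this
        exact this.mono_left nhdsWithin_le_nhds
      · filter_upwards [self_mem_nhdsWithin] with h hh
        exact mul_pos hT hh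
    have hev := hlim.eventually (gt_mem_nhds
      (ENNReal.ofReal_pos.2 (show (0 : ℝ) < ε / (T * T) by positivity)))
    have hlt : ∀ᶠ h in 𝓝[>] (0 : ℝ), h < 1 :=
      nhdsWithin_le_nhds (gt_mem_nhds one_pos)
    filter_upwards [hev, hlt, self_mem_nhdsWithin] with h h1 h2 h3
    have hh : 0 < h := h3
    have hs1 : Real.sin h ≤ h := Real.sin_le hh.le
    have hs0 : 0 ≤ Real.sin h := Real.sin_nonneg_of_nonneg_of_le_pi hh.le
      (by have := Real.pi_gt_three; linarith)
    have h4 : P a b T h ⊆ {x : ℂ × ℝ | x.2 ∈ G (b - a) (T * h) ∧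
        (a - x.1) * conj (dir x.2) ∈ Icc (-T) 0 ×ℂ Icc 0 (T * Real.sin h)} := by
      intro x hx
      obtain ⟨h5, h6, h7⟩ := hx
      refine ⟨⟨h5, ?_⟩, h6⟩
      have h8 : (b - a) * conj (dir x.2) = (b - x.1) * conj (dir x.2) -
        (a - x.1) * conj (dir x.2) := by ring
      rw [mem_reProdIm] at h6 h7
      rw [h8, sub_im, abs_le]
      have h9 : T * Real.sin h ≤ T * h := mul_le_mul_of_nonneg_left hs1 hT.le
      constructor
      · linarith [h6.2.2, h7.2.1]
      · linarith [h6.2.1, h7.2.2]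
    refine (measure_mono h4).trans ?_
    have hmE : MeasurableSet (Icc (-T) 0 ×ℂ Icc 0 (T * Real.sin h)) :=
      (measurable_re measurableSet_Icc).inter (measurable_im measurableSet_Icc)
    rw [key a _ _ (G_meas _ _) hmE, vol_rect]
    have h10 : ENNReal.ofReal (0 - -T) * ENNReal.ofReal (T * Real.sin h - 0) ≤
        ENNReal.ofReal (T * T * h) := by
      rw [← ENNReal.ofReal_mul (by linarith)]
      apply ENNReal.ofReal_le_ofReal
      nlinarith [mul_pos hT hT]
    calc ENNReal.ofReal (0 - -T) * ENNReal.ofReal (T * Real.sin h - 0) *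
        volume (G (b - a) (T * h)) ≤ ENNReal.ofReal (T * T * h) * ENNReal.ofReal (ε / (T * T)) :=
          mul_le_mul' h10 h1.le
      _ = ENNReal.ofReal (ε * h) := by
        rw [← ENNReal.ofReal_mul (by positivity)]
        congr 1
        field_simp

/-- **BAD** -/
theorem bad : S_Bad := by
  intro V T ε hV hT hε
  classical
  set N : ℕ := hV.toFinset.card with hN
  set ε' : ℝ := ε / ((N : ℝ) * N + 1) with hε'
  have hε'0 : 0 < ε' := by positivity
  have h1 : ∀ᶠ h in 𝓝[>] (0 : ℝ), ∀ a ∈ hV.toFinset, ∀ b ∈ hV.toFinset,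
      volume (P a b T h) ≤ ENNReal.ofReal (ε' * h) := by
    rw [Filter.eventually_all_finset]
    intro a _
    rw [Filter.eventually_all_finset]
    intro b _
    exact P_small a b T ε' hT hε'0
  have hlt : ∀ᶠ h in 𝓝[>] (0 : ℝ), h < 1 :=
    nhdsWithin_le_nhds (gt_mem_nhds one_pos)
  filter_upwards [h1, hlt, self_mem_nhdsWithin] with h h2 h3 h4
  have hh : 0 < h := h4
  have h5 : Bad V T h ⊆ ⋃ a ∈ hV.toFinset, ⋃ b ∈ hV.toFinset, P a b T h := by
    have := bad_subset V T h hT hh h3.le
    simpa using this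
  calc volume (Bad V T h) ≤ volume (⋃ a ∈ hV.toFinset, ⋃ b ∈ hV.toFinset, P a b T h) :=
        measure_mono h5
    _ ≤ ∑ a ∈ hV.toFinset, volume (⋃ b ∈ hV.toFinset, P a b T h) :=
        measure_biUnion_finset_le _ _
    _ ≤ ∑ a ∈ hV.toFinset, ∑ b ∈ hV.toFinset, volume (P a b T h) :=
        Finset.sum_le_sum fun a _ => measure_biUnion_finset_le _ _
    _ ≤ ∑ a ∈ hV.toFinset, ∑ b ∈ hV.toFinset, ENNReal.ofReal (ε' * h) :=
        Finset.sum_le_sum fun a ha => Finset.sum_le_sum fun b hb => h2 a ha b hb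
    _ = ENNReal.ofReal ((N : ℝ) * N * (ε' * h)) := by
        have hN0 : (0 : ℝ) ≤ N := N.cast_nonneg
        rw [Finset.sum_const, Finset.sum_const, ← hN, mul_assoc, ENNReal.ofReal_mul hN0,
          ENNReal.ofReal_mul hN0, ENNReal.ofReal_natCast, nsmul_eq_mul, nsmul_eq_mul]
    _ ≤ ENNReal.ofReal (ε * h) := by
        apply ENNReal.ofReal_le_ofReal
        have h6 : ε' * ((N : ℝ) * N + 1) = ε := by
          rw [hε']
          field_simp
        nlinarith [mul_pos hε'0 hh]

end Pool.Agent.W74.BB
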